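import Mathlib

/-!
Cauchy-Binet for sums of rank one matrices, and the link sums of the common bases of two
configurations `v`, `w` with `∑ v_x ⊗ w_x = 0`, over every commutative ring.
-/

set_option autoImplicit false
set_option linter.unusedSectionVars false

namespace Pool.Agent.H97CB

open Finset Matrix

variable {E K : Type*} [DecidableEq E] [CommRing K] {k : ℕ}

/-- The sum of the rank one matrices `v_x w_xᵀ` over `x ∈ S`. -/
def MM (v w : E → Fin k → K) (S : Finset E) : Matrix (Fin k) (Fin k) K :=
  fun i j => ∑ x ∈ S, v x i * w x j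

/-- The term of a choice of one element for every row. -/
noncomputable def g (v w : E → Fin k → K) (f : Fin k → E) : K :=
  (∏ i, v (f i) i) * (Matrix.of fun i j => w (f i) j : Matrix (Fin k) (Fin k) K).det

lemma g_not_inj (v w : E → Fin k → K) {f : Fin k → E} (hf : ¬ Function.Injective f) :
    g v w f = 0 := by
  rw [Function.not_injective_iff] at hf
  obtain ⟨i, j, hij, hne⟩ := hf
  have h : (Matrix.of fun i j => w (f i) j : Matrix (Fin k) (Fin k) K) i =
      (Matrix.of fun i j => w (f i) j : Matrix (Fin k) (Fin k) K) j := by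
    funext l
    simp only [Matrix.of_apply, hij]
  rw [g, Matrix.det_zero_of_row_eq hne h, mul_zero]

lemma det_MM_choice (v w : E → Fin k → K) (S : Finset E) :
    (MM v w S).det = ∑ f ∈ Fintype.piFinset (fun _ : Fin k => S), g v w f := by
  have h1 : MM v w S = fun i => ∑ x ∈ S, v x i • w x := by
    funext i j
    rw [MM, Finset.sum_apply]
    rfl
  have h2 : (MM v w S).det =
      (Matrix.detRowAlternating (R := K) (n := Fin k)).toMultilinearMap (MM v w S) := rfl
  rw [h2, h1, MultilinearMap.map_sum_finset]
  refine Finset.sum_congr rfl fun f _ => ?_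
  rw [MultilinearMap.map_smul_univ]
  rfl

/-- Cauchy-Binet. -/
theorem det_MM (v w : E → Fin k → K) (S : Finset E) :
    (MM v w S).det = ∑ A ∈ S.powersetCard k, (MM v w A).det := by
  simp only [det_MM_choice]
  rw [Finset.sum_comm' (t' := Fintype.piFinset (fun _ : Fin k => S))
    (s' := fun f => (S.powersetCard k).filter fun A => ∀ i, f i ∈ A)]
  · refine Finset.sum_congr rfl fun f hf => ?_
    by_cases hinj : Function.Injective f
    · have h1 : (S.powersetCard k).filter (fun A => ∀ i, f i ∈ A) = {univ.image f} := by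
        ext A
        simp only [Finset.mem_filter, Finset.mem_powersetCard, Finset.mem_singleton]
        constructor
        · rintro ⟨⟨_, h2⟩, h3⟩
          symm
          apply Finset.eq_of_subset_of_card_le
          · intro x hx
            obtain ⟨i, _, rfl⟩ := Finset.mem_image.1 hx
            exact h3 i
          · rw [Finset.card_image_of_injective _ hinj, Finset.card_univ, Fintype.card_fin, h2]
        · rintro rfl
          refine ⟨⟨fun x hx => ?_, ?_⟩, fun i => Finset.mem_image_of_mem _ (Finset.mem_univ i)⟩
          · obtain ⟨i, _, rfl⟩ := Finset.mem_image.1 hx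
            exact Fintype.mem_piFinset.1 hf i
          · rw [Finset.card_image_of_injective _ hinj, Finset.card_univ, Fintype.card_fin]
      rw [h1, Finset.sum_singleton]
    · rw [g_not_inj v w hinj, Finset.sum_const_zero]
  · intro A f
    simp only [Finset.mem_powersetCard, Fintype.mem_piFinset, Finset.mem_filter]
    constructor
    · rintro ⟨h1, h2⟩
      exact ⟨⟨h1, h2⟩, fun i => h1.1 (h2 i)⟩
    · rintro ⟨⟨h1, h2⟩, _⟩
      exact ⟨h1, h2⟩

theorem det_MM_of_card_lt (v w : E → Fin k → K) {S : Finset E} (hS : S.card < k) :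
    (MM v w S).det = 0 := by
  rw [det_MM, Finset.powersetCard_eq_empty.2 hS, Finset.sum_empty]

lemma MM_compl [Fintype E] {v w : E → Fin k → K} (hrel : ∀ i j, ∑ x, v x i * w x j = 0)
    (D : Finset E) : MM v w (univ \ D) = - MM v w D := by
  funext i j
  have h1 := Finset.sum_sdiff (f := fun x => v x i * w x j) (Finset.subset_univ D)
  rw [hrel i j] at h1
  rw [Matrix.neg_apply]
  exact eq_neg_of_add_eq_zero_left h1

lemma sum_neg_one (C A : Finset E) :
    ∑ D ∈ C.powerset.filter (fun D => Disjoint D A), (-1 : K) ^ D.card =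
      if C ⊆ A then 1 else 0 := by
  have h1 : C.powerset.filter (fun D => Disjoint D A) = (C \ A).powerset := by
    ext D
    simp only [Finset.mem_filter, Finset.mem_powerset, Finset.subset_sdiff]
  rw [h1]
  have h2 := congrArg (fun z : ℤ => (z : K)) (Finset.sum_powerset_neg_one_pow_card (x := C \ A))
  simp only [Int.cast_sum, Int.cast_pow, Int.cast_neg, Int.cast_one] at h2
  rw [h2]
  by_cases h : C ⊆ A
  · rw [if_pos h, if_pos (Finset.sdiff_eq_empty_iff_subset.2 h), Int.cast_one]
  · rw [if_neg h, if_neg (fun h' => h (Finset.sdiff_eq_empty_iff_subset.1 h')), Int.cast_zero]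

/-- The link sums: all `C` with fewer than `k` elements, every commutative ring. -/
theorem link_sum [Fintype E] {v w : E → Fin k → K} (hrel : ∀ i j, ∑ x, v x i * w x j = 0)
    {C : Finset E} (hC : C.card < k) :
    ∑ A ∈ (univ : Finset E).powersetCard k with C ⊆ A, (MM v w A).det = 0 := by
  have h1 : ∀ D ∈ C.powerset, ∑ A ∈ (univ : Finset E).powersetCard k with Disjoint D A,
      (MM v w A).det = 0 := by
    intro D hD
    have h2 : ((univ : Finset E).powersetCard k).filter (fun A => Disjoint D A) =
        (univ \ D).powersetCard k := by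
      ext A
      simp only [Finset.mem_filter, Finset.mem_powersetCard, Finset.subset_sdiff]
      constructor
      · rintro ⟨⟨h, h3⟩, h4⟩
        exact ⟨⟨h, h4.symm⟩, h3⟩
      · rintro ⟨⟨h, h4⟩, h3⟩
        exact ⟨⟨h, h3⟩, h4.symm⟩
    rw [h2, ← det_MM, MM_compl hrel, Matrix.det_neg,
      det_MM_of_card_lt v w ((Finset.card_le_card (Finset.mem_powerset.1 hD)).trans_lt hC),
      mul_zero]
  have h3 : ∑ A ∈ (univ : Finset E).powersetCard k with C ⊆ A, (MM v w A).det =
      ∑ D ∈ C.powerset, (-1 : K) ^ D.card *
        ∑ A ∈ (univ : Finset E).powersetCard k with Disjoint D A, (MM v w A).det := by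
    simp only [Finset.mul_sum]
    rw [Finset.sum_comm' (t' := (univ : Finset E).powersetCard k)
      (s' := fun A => C.powerset.filter fun D => Disjoint D A)]
    · rw [Finset.sum_filter]
      refine Finset.sum_congr rfl fun A _ => ?_
      rw [← Finset.sum_mul, sum_neg_one, ite_mul, one_mul, zero_mul]
    · intro D A
      simp only [Finset.mem_filter]
      tauto
  rw [h3]
  exact Finset.sum_eq_zero fun D hD => by rw [h1 D hD, mul_zero]

/-- The number `det (MM A)` of a `k`-set is the product of the two determinants. -/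
theorem det_MM_eq (v w : E → Fin k → K) {A : Finset E} (e : Fin k ≃ A) :
    (MM v w A).det = (Matrix.of fun i j => v (e i) j : Matrix (Fin k) (Fin k) K).det *
      (Matrix.of fun i j => w (e i) j : Matrix (Fin k) (Fin k) K).det := by
  rw [← Matrix.det_transpose (Matrix.of fun i j => v (e i) j), ← Matrix.det_mul]
  congr 1
  funext i j
  rw [Matrix.mul_apply, MM, ← Finset.sum_coe_sort A, ← e.sum_comp]
  rfl

end Pool.Agent.H97CB

namespace Pool.Agent.H97CB

variable {E K : Type*} [DecidableEq E] [Field K] {k : ℕ}

lemma det_ne_zero_iff (v : E → Fin k → K) {A : Finset E} (e : Fin k ≃ A) :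
    (Matrix.of fun i j => v (e i) j : Matrix (Fin k) (Fin k) K).det ≠ 0 ↔
      LinearIndepOn K v (A : Set E) := by
  rw [← isUnit_iff_ne_zero, ← Matrix.isUnit_iff_isUnit_det,
    ← Matrix.linearIndependent_rows_iff_isUnit]
  have h : (Matrix.of fun i j => v (e i) j : Matrix (Fin k) (Fin k) K).row =
      (fun x : A => v x) ∘ e := by
    funext i j
    rfl
  rw [h, linearIndependent_equiv e]
  rfl

/-- `det (MM A) ≠ 0` for a `k`-set `A` iff `A` is independent for `v` and for `w`. -/
theorem det_MM_ne_zero (v w : E → Fin k → K) {A : Finset E} (hA : A.card = k) :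
    (MM v w A).det ≠ 0 ↔ LinearIndepOn K v (A : Set E) ∧ LinearIndepOn K w (A : Set E) := by
  have e : Fin k ≃ A := (finCongr hA.symm).trans A.equivFin.symm
  rw [det_MM_eq v w e, mul_ne_zero_iff, det_ne_zero_iff, det_ne_zero_iff]

/-- The number of a set: `det (MM A)` for `k`-sets, `0` for the others. -/
noncomputable def FF (v w : E → Fin k → K) (A : Finset E) : K :=
  if A.card = k then (MM v w A).det else 0

theorem FF_ne_zero (v w : E → Fin k → K) (A : Finset E) :
    FF v w A ≠ 0 ↔ A.card = k ∧ LinearIndepOn K v (A : Set E) ∧ LinearIndepOn K w (A : Set E) := by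
  unfold FF
  by_cases hA : A.card = k
  · rw [if_pos hA, det_MM_ne_zero v w hA]
    simp [hA]
  · simp [hA]

theorem FF_sum [Fintype E] {v w : E → Fin k → K} (hrel : ∀ i j, ∑ x, v x i * w x j = 0)
    (C : Finset E) (hC : C.card < k) : ∑ A with C ⊆ A, FF v w A = 0 := by
  rw [← link_sum hrel hC]
  symm
  apply Finset.sum_subset_zero_on_sdiff
  · intro A hA
    simp only [Finset.mem_filter, Finset.mem_univ, true_and] at hA ⊢
    exact hA.2
  · intro A hA
    simp only [Finset.mem_sdiff, Finset.mem_filter, Finset.mem_univ, true_and,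
      Finset.mem_powersetCard, Finset.subset_univ] at hA
    rw [FF, if_neg]
    intro h
    exact hA.2 ⟨h, hA.1⟩
  · intro A hA
    simp only [Finset.mem_filter, Finset.mem_powersetCard] at hA
    rw [FF, if_pos hA.1.2]

end Pool.Agent.H97CB
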